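import Pool.Agent.TH5.HL.Fields
import Pool.Agent.TH5.ST.Split

/-!
# Splitting of Hodge classes between groups of CM Hodge structures
-/

set_option autoImplicit false

namespace Pool.Agent.TH5.HL

open NumberField Pool.Agent.H485R3 Pool.Agent.H485R3.Hodge Pool.Agent.TH5.ST

section defs

variable {I J : Type} [Fintype I] [DecidableEq I] {E : J → Type} [∀ j, Field (E j)]
  [∀ j, NumberField (E j)] (u : ∀ j, (E j →ₐ[ℚ] ℂ) → ℤ)

/-- All Hodge classes in tensor products of the Hodge structures given by `E` and `u` are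
combinations of external products over the groups `i ∈ I` of Hodge classes. -/
def HodgeClassesSplit (γ : J → I) : Prop :=
  ∀ {n : ℕ} (t : Fin n → J) (φ : MultilinearMap ℚ (fun k => E (t k)) ℚ),
    IsHodgeForm u t φ → φ ∈ Submodule.span ℚ {ψ | IsExternalProductOfHodge u γ t ψ}

/-- The space of the traces `∑ j ∈ group i, ∑ σ, u j σ * σ (z j)`, `z j ∈ E j`. -/
def HodgeTraceSpace [Fintype J] (γ : J → I) (i : I) : Set ℂ :=
  {x | ∃ z : ∀ j, E j, x = ∑ j with γ j = i, ∑ σ : E j →ₐ[ℚ] ℂ, (u j σ : ℂ) * σ (z j)}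

/-- The spaces of traces of the groups are linearly independent over `ℚ`. -/
def HodgeTraceSpacesIndependent [Fintype J] (γ : J → I) : Prop :=
  ∀ x : I → ℂ, (∀ i, x i ∈ HodgeTraceSpace u γ i) → ∑ i, x i = 0 → ∀ i, x i = 0

end defs

section fiber

variable {J : Type} [Fintype J] {E : J → Type} [∀ j, Field (E j)] [∀ j, NumberField (E j)]
  {L : Type} [Field L] [Algebra ℚ L] [FiniteDimensional ℚ L]

open Classical in
theorem sum_fiber' {κ R : Type} [Fintype κ] [CommRing R] (X : κ → Σ j, (E j →ₐ[ℚ] L))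
    (G : (Σ j, (E j →ₐ[ℚ] L)) → R) :
    ∑ k, G (X k) = ∑ j, ∑ τ : E j →ₐ[ℚ] L,
      ((Finset.univ.filter (fun k => X k = ⟨j, τ⟩)).card : R) * G ⟨j, τ⟩ := by
  rw [← Finset.sum_fiberwise (s := Finset.univ) (g := X)]
  rw [Fintype.sum_sigma]
  refine Finset.sum_congr rfl fun i _ => Finset.sum_congr rfl fun τ _ => ?_
  rw [← nsmul_eq_mul, ← Finset.sum_const]
  refine Finset.sum_congr rfl fun k hk => ?_
  rw [(Finset.mem_filter.1 hk).2]

theorem sum_group {I κ R : Type} [DecidableEq I] [Fintype κ] [CommRing R]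
    (γ : J → I) (i : I) (X : κ → Σ j, (E j →ₐ[ℚ] L)) (f : ∀ j, (E j →ₐ[ℚ] L) → R)
    (hX : ∀ G : (Σ j, (E j →ₐ[ℚ] L)) → R, ∑ k, G (X k) = ∑ j, ∑ τ : E j →ₐ[ℚ] L,
      f j τ * G ⟨j, τ⟩)
    (G : (Σ j, (E j →ₐ[ℚ] L)) → R) :
    ∑ k : {k // γ (X k).1 = i}, G (X k) = ∑ j with γ j = i, ∑ τ : E j →ₐ[ℚ] L,
      f j τ * G ⟨j, τ⟩ := by
  have h1 := hX (fun x => if γ x.1 = i then G x else 0)
  have h2 : ∑ k, (if γ (X k).1 = i then G (X k) else 0) =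
      ∑ k : {k // γ (X k).1 = i}, G (X k) := by
    rw [← Finset.sum_filter]
    exact Finset.sum_subtype _ (fun k => by simp) _
  rw [← h2, h1, Finset.sum_filter]
  refine Finset.sum_congr rfl fun j _ => ?_
  by_cases hj : γ j = i
  · simp [hj]
  · simp [hj]

end fiber

section core

variable {I J : Type} [Fintype J] [DecidableEq I] {E : J → Type} [∀ j, Field (E j)]
  [∀ j, NumberField (E j)]
  {L : Type} [Field L] [CharZero L] [Algebra ℚ L] [FiniteDimensional ℚ L] [IsGalois ℚ L]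
  (w : ∀ j, (E j →ₐ[ℚ] L) → ℚ)

omit [Fintype J] [DecidableEq I] in
/-- Every function on the embeddings comes from elements `z j` (depending on `θ`). -/
theorem exists_elements (s : ∀ j, E j →ₐ[ℚ] L) (F : ∀ j, (E j →ₐ[ℚ] L) → ℚ) (θ : L) :
    ∃ z : ∀ j, E j, ∀ j, ∑ τ : E j →ₐ[ℚ] L, (w j τ : L) * τ (z j) =
        ∑ h : L ≃ₐ[ℚ] L, ((∑ τ : E j →ₐ[ℚ] L, F j τ * w j (act h τ) : ℚ) : L) * h θ := by
  classical
  have hz : ∀ j, ∃ z : E j, s j z = ∑ h : L ≃ₐ[ℚ] L, (F j (act h⁻¹ (s j)) : L) * h θ := by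
    intro j
    have h1 : ∑ h : L ≃ₐ[ℚ] L, (F j (act h⁻¹ (s j)) : L) * h θ ∈ (s j).fieldRange := by
      rw [← IsGalois.fixedField_fixingSubgroup (s j).fieldRange]
      rw [IntermediateField.mem_fixedField_iff]
      intro u hu
      rw [map_sum]
      refine Fintype.sum_equiv (Equiv.mulLeft u) _ _ fun h => ?_
      rw [map_mul, map_ratCast]
      have h2 : act (u * h)⁻¹ (s j) = act h⁻¹ (s j) := by
        rw [mul_inv_rev, act_mul]
        congr 1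
        rw [act_inv_eq]
        ext z
        have h3 := (IntermediateField.mem_fixingSubgroup_iff _ _).1 hu (s j z) ⟨z, rfl⟩
        exact h3.symm
      change (F j (act h⁻¹ (s j)) : L) * u (h θ) = (F j (act (u * h)⁻¹ (s j)) : L) * (u * h) θ
      rw [h2]
      rfl
    exact h1
  choose z hz using hz
  have hρ : ∀ j (ρ : E j →ₐ[ℚ] L),
      ρ (z j) = ∑ h : L ≃ₐ[ℚ] L, (F j (act h⁻¹ ρ) : L) * h θ := by
    intro j ρ
    obtain ⟨g, rfl⟩ := exists_act (s j) ρ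
    rw [act_apply, hz, map_sum]
    refine Fintype.sum_equiv (Equiv.mulLeft g) _ _ fun h => ?_
    rw [map_mul, map_ratCast]
    have h2 : act (g * h)⁻¹ (act g (s j)) = act h⁻¹ (s j) := by
      rw [mul_inv_rev, act_mul, act_inv_act]
    change (F j (act h⁻¹ (s j)) : L) * g (h θ) =
      (F j (act (g * h)⁻¹ (act g (s j))) : L) * (g * h) θ
    rw [h2]
    rfl
  refine ⟨z, fun j => ?_⟩
  simp only [hρ, Finset.mul_sum, ← mul_assoc]
  rw [Finset.sum_comm]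
  refine Finset.sum_congr rfl fun h _ => ?_
  rw [← Finset.sum_mul]
  congr 1
  rw [Rat.cast_sum]
  symm
  refine Fintype.sum_equiv ⟨act h, act h⁻¹, act_inv_act h, act_act_inv h⟩ _ _ fun τ => ?_
  change ((F j τ * w j (act h τ) : ℚ) : L) =
    (w j (act h τ) : L) * (F j (act h⁻¹ (act h τ)) : L)
  rw [act_inv_act]
  push_cast
  ring

theorem balanced_group (s : ∀ j, E j →ₐ[ℚ] L) (γ : J → I)
    (hind : ∀ z : ∀ j, E j, ∑ j, ∑ τ : E j →ₐ[ℚ] L, (w j τ : L) * τ (z j) = 0 →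
      ∀ i, ∑ j with γ j = i, ∑ τ : E j →ₐ[ℚ] L, (w j τ : L) * τ (z j) = 0)
    (F : ∀ j, (E j →ₐ[ℚ] L) → ℚ)
    (hbal : ∀ g : L ≃ₐ[ℚ] L, ∑ j, ∑ τ : E j →ₐ[ℚ] L, F j τ * w j (act g τ) = 0)
    (i : I) (g : L ≃ₐ[ℚ] L) :
    ∑ j with γ j = i, ∑ τ : E j →ₐ[ℚ] L, F j τ * w j (act g τ) = 0 := by
  classical
  refine eq_zero_of_forall_theta
    (fun g => ∑ j with γ j = i, ∑ τ : E j →ₐ[ℚ] L, F j τ * w j (act g τ)) ?_ g
  intro θ
  obtain ⟨z, hz⟩ := exists_elements w s F θ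
  have hsumS : ∀ S : Finset J, ∑ j ∈ S, ∑ τ : E j →ₐ[ℚ] L, (w j τ : L) * τ (z j) =
      ∑ h : L ≃ₐ[ℚ] L, ((∑ j ∈ S, ∑ τ : E j →ₐ[ℚ] L, F j τ * w j (act h τ) : ℚ) : L) * h θ := by
    intro S
    rw [Finset.sum_congr rfl fun j _ => hz j, Finset.sum_comm]
    refine Finset.sum_congr rfl fun h _ => ?_
    rw [← Finset.sum_mul, ← Rat.cast_sum]
  have h1 := hind z (by
    rw [hsumS]
    refine Finset.sum_eq_zero fun h _ => ?_
    rw [hbal, Rat.cast_zero, zero_mul]) i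
  rw [hsumS] at h1
  exact h1

theorem exists_fun_of_dependent' (γ : J → I) (hw : ∀ j, ∑ τ : E j →ₐ[ℚ] L, w j τ = 0)
    (z : ∀ j, E j) (hsum : ∑ j, ∑ τ : E j →ₐ[ℚ] L, (w j τ : L) * τ (z j) = 0) (i₁ : I)
    (hz : ∑ j with γ j = i₁, ∑ τ : E j →ₐ[ℚ] L, (w j τ : L) * τ (z j) ≠ 0) :
    ∃ f : ∀ j, (E j →ₐ[ℚ] L) → ℕ, (∀ g : L ≃ₐ[ℚ] L,
      ∑ j, ∑ τ : E j →ₐ[ℚ] L, (f j τ : ℚ) * w j (act g τ) = 0) ∧
      ∑ j with γ j = i₁, ∑ τ : E j →ₐ[ℚ] L, (f j τ : ℚ) * w j τ ≠ 0 := by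
  classical
  let S : L := ∑ j with γ j = i₁, ∑ τ : E j →ₐ[ℚ] L, (w j τ : L) * τ (z j)
  let θ : L := S⁻¹
  let F : ∀ j, (E j →ₐ[ℚ] L) → ℚ := fun j τ => Algebra.trace ℚ L (θ * τ (z j))
  have hFsum : ∀ (A : Finset J) (g : L ≃ₐ[ℚ] L),
      ∑ j ∈ A, ∑ τ : E j →ₐ[ℚ] L, F j τ * w j (act g τ) =
        Algebra.trace ℚ L (θ * g⁻¹ (∑ j ∈ A, ∑ τ : E j →ₐ[ℚ] L, (w j τ : L) * τ (z j))) := by
    intro A g
    have h1 : ∀ j, ∑ τ : E j →ₐ[ℚ] L, F j τ * w j (act g τ) =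
        ∑ τ : E j →ₐ[ℚ] L, w j τ * Algebra.trace ℚ L (θ * g⁻¹ (τ (z j))) := by
      intro j
      refine Fintype.sum_equiv ⟨act g, act g⁻¹, act_inv_act g, act_act_inv g⟩ _ _ fun τ => ?_
      change F j τ * w j (act g τ) =
        w j (act g τ) * Algebra.trace ℚ L (θ * (act g⁻¹ (act g τ)) (z j))
      rw [act_inv_act, mul_comm]
    have h2 : ∀ j (τ : E j →ₐ[ℚ] L), w j τ * Algebra.trace ℚ L (θ * g⁻¹ (τ (z j))) =
        Algebra.trace ℚ L (θ * g⁻¹ ((w j τ : L) * τ (z j))) := by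
      intro j τ
      have h3 : θ * g⁻¹ ((w j τ : L) * τ (z j)) =
          (algebraMap ℚ L (w j τ)) * (θ * g⁻¹ (τ (z j))) := by
        rw [map_mul g⁻¹, map_ratCast g⁻¹, eq_ratCast (algebraMap ℚ L)]
        ring
      rw [h3, ← Algebra.smul_def, LinearMap.map_smul, smul_eq_mul]
    simp only [h1, h2]
    simp only [← map_sum, ← Finset.mul_sum]
  have hFbal : ∀ g : L ≃ₐ[ℚ] L, ∑ j, ∑ τ : E j →ₐ[ℚ] L, F j τ * w j (act g τ) = 0 := by
    intro g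
    rw [hFsum, hsum, map_zero, mul_zero, map_zero]
  have hact1 : ∀ j (τ : E j →ₐ[ℚ] L), act 1 τ = τ := fun j τ => rfl
  have hF1 : ∑ j with γ j = i₁, ∑ τ : E j →ₐ[ℚ] L, F j τ * w j τ ≠ 0 := by
    have h1 := hFsum (Finset.univ.filter (fun j => γ j = i₁)) 1
    simp only [hact1] at h1
    rw [h1, inv_one]
    have h4 : θ * (1 : L ≃ₐ[ℚ] L) S = 1 := inv_mul_cancel₀ hz
    change Algebra.trace ℚ L (θ * (1 : L ≃ₐ[ℚ] L) S) ≠ 0
    rw [h4]
    have h3 : Algebra.trace ℚ L (1 : L) = Module.finrank ℚ L := by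
      have := Algebra.trace_algebraMap (R := ℚ) (S := L) (1 : ℚ)
      simpa using this
    rw [h3]
    exact_mod_cast (Module.finrank_pos (R := ℚ) (M := L)).ne'
  -- clear the denominators
  obtain ⟨N, hN, hNint⟩ : ∃ N : ℕ, 0 < N ∧ ∀ j τ, ∃ m : ℤ, (N : ℚ) * F j τ = m := by
    refine ⟨∏ x : (Σ j, (E j →ₐ[ℚ] L)), (F x.1 x.2).den,
      Finset.prod_pos fun x _ => (F x.1 x.2).den_pos, fun j τ => ?_⟩
    obtain ⟨k, hk⟩ : (F j τ).den ∣ ∏ x : (Σ j, (E j →ₐ[ℚ] L)), (F x.1 x.2).den :=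
      Finset.dvd_prod_of_mem (fun x : (Σ j, (E j →ₐ[ℚ] L)) => (F x.1 x.2).den)
        (Finset.mem_univ (⟨j, τ⟩ : Σ j, (E j →ₐ[ℚ] L)))
    refine ⟨k * (F j τ).num, ?_⟩
    rw [hk]
    push_cast
    have h1 : ((F j τ).den : ℚ) * F j τ = (F j τ).num := by
      rw [mul_comm]; exact Rat.mul_den_eq_num _
    calc ((F j τ).den : ℚ) * k * F j τ = k * (((F j τ).den : ℚ) * F j τ) := by ring
      _ = _ := by rw [h1]
  choose M hM using hNint
  let C : ℕ := ∑ x : (Σ j, (E j →ₐ[ℚ] L)), (M x.1 x.2).natAbs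
  have hC : ∀ j τ, 0 ≤ M j τ + C := by
    intro j τ
    have h1 : (M j τ).natAbs ≤ C := Finset.single_le_sum
      (f := fun x : (Σ j, (E j →ₐ[ℚ] L)) => (M x.1 x.2).natAbs) (fun _ _ => Nat.zero_le _)
      (Finset.mem_univ (⟨j, τ⟩ : Σ j, (E j →ₐ[ℚ] L)))
    omega
  let f : ∀ j, (E j →ₐ[ℚ] L) → ℕ := fun j τ => (M j τ + C).toNat
  have hf : ∀ j τ, (f j τ : ℚ) = N * F j τ + C := by
    intro j τ
    rw [hM j τ]
    have h1 : ((M j τ + C).toNat : ℤ) = M j τ + C := Int.toNat_of_nonneg (hC j τ)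
    exact_mod_cast h1
  have hw' : ∀ j (g : L ≃ₐ[ℚ] L), ∑ τ : E j →ₐ[ℚ] L, w j (act g τ) = 0 := by
    intro j g
    rw [← hw j]
    exact Fintype.sum_equiv ⟨act g, act g⁻¹, act_inv_act g, act_act_inv g⟩ _ _ fun τ => rfl
  have hfw : ∀ (A : Finset J) (g : L ≃ₐ[ℚ] L),
      ∑ j ∈ A, ∑ τ : E j →ₐ[ℚ] L, (f j τ : ℚ) * w j (act g τ) =
        N * ∑ j ∈ A, ∑ τ : E j →ₐ[ℚ] L, F j τ * w j (act g τ) := by
    intro A g
    rw [Finset.mul_sum]
    refine Finset.sum_congr rfl fun j _ => ?_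
    simp only [hf, add_mul]
    rw [Finset.sum_add_distrib, ← Finset.mul_sum, hw', mul_zero, add_zero, Finset.mul_sum]
    exact Finset.sum_congr rfl fun τ _ => by ring
  refine ⟨f, fun g => ?_, ?_⟩
  · rw [hfw, hFbal, mul_zero]
  · have h1 := hfw (Finset.univ.filter (fun j => γ j = i₁)) 1
    simp only [hact1] at h1
    rw [h1]
    exact mul_ne_zero (by exact_mod_cast hN.ne') hF1

end core

section main

variable {I J : Type} [Fintype I] [DecidableEq I] [Fintype J] {E : J → Type} [∀ j, Field (E j)]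
  [∀ j, NumberField (E j)] (u : ∀ j, (E j →ₐ[ℚ] ℂ) → ℤ) (γ : J → I)

omit [Fintype I] in
/-- the traces in a common Galois extension -/
theorem map_trace {L : Type} [Field L] [CharZero L] [Algebra ℚ L] [FiniteDimensional ℚ L]
    (ι : L →ₐ[ℚ] ℂ)
    (hlift : ∀ j, ∀ σ : E j →ₐ[ℚ] ℂ, ∃ σ' : E j →ₐ[ℚ] L, ι.comp σ' = σ) (A : Finset J)
    (z : ∀ j, E j) :
    ι (∑ j ∈ A, ∑ τ : E j →ₐ[ℚ] L, (((u j (ι.comp τ) : ℤ) : ℚ) : L) * τ (z j)) =
      ∑ j ∈ A, ∑ σ : E j →ₐ[ℚ] ℂ, (u j σ : ℂ) * σ (z j) := by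
  have hbij : ∀ j, Function.Bijective (fun τ : E j →ₐ[ℚ] L => ι.comp τ) := by
    intro j
    refine ⟨fun τ τ' h => ?_, fun σ => hlift j σ⟩
    ext z
    exact ι.toRingHom.injective (DFunLike.congr_fun h z)
  rw [map_sum]
  refine Finset.sum_congr rfl fun j _ => ?_
  rw [map_sum]
  refine Fintype.sum_bijective _ (hbij j) _ _ fun τ => ?_
  rw [map_mul, map_ratCast]
  push_cast
  rfl

theorem hodge_split_of_independent (h : HodgeTraceSpacesIndependent u γ) :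
    HodgeClassesSplit u γ := by
  classical
  intro n t φ hφ
  obtain ⟨L, _, _, _, _, ι, hlift, _⟩ := exists_common E
  have hCL : CharZero L := algebraRat.charZero L
  obtain ⟨b, hb1, hb2⟩ := hφ
  have hb : b = coef φ := coef_unique φ b hb1
  rw [hb] at hb1 hb2
  let W : ∀ j, (E j →ₐ[ℚ] L) → ℚ := fun j τ => ((u j (ι.comp τ) : ℤ) : ℚ)
  have hs : ∀ j, Nonempty (E j →ₐ[ℚ] L) := by
    intro j
    obtain ⟨σ', _⟩ := hlift j (IsAlgClosed.lift : E j →ₐ[ℚ] ℂ)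
    exact ⟨σ'⟩
  have s : ∀ j, E j →ₐ[ℚ] L := fun j => Classical.choice (hs j)
  have hindL : ∀ z : ∀ j, E j, ∑ j, ∑ τ : E j →ₐ[ℚ] L, (W j τ : L) * τ (z j) = 0 →
      ∀ i, ∑ j with γ j = i, ∑ τ : E j →ₐ[ℚ] L, (W j τ : L) * τ (z j) = 0 := by
    intro z h0 i
    have h1 := map_trace u ι hlift Finset.univ z
    rw [h0, map_zero] at h1
    have h5 := Finset.sum_fiberwise (s := (Finset.univ : Finset J)) (g := γ)
      (f := fun j => ∑ σ : E j →ₐ[ℚ] ℂ, (u j σ : ℂ) * σ (z j))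
    have h3 := h (fun i => ∑ j with γ j = i, ∑ σ : E j →ₐ[ℚ] ℂ, (u j σ : ℂ) * σ (z j))
      (fun i => ⟨z, rfl⟩) (h5.trans h1.symm) i
    apply ι.toRingHom.injective
    change ι _ = ι 0
    rw [map_zero]
    exact (map_trace u ι hlift _ z).trans h3
  refine kunneth_general γ ι hlift t φ _ ?_
  intro σ' hσ' a
  have hcoefL : coef φ σ' ≠ 0 := by
    intro h
    apply hσ'
    rw [coef_comp, h, map_zero]
  have hrel : ∀ g : L ≃ₐ[ℚ] L, ∑ k, u (t k) (ι.comp (act g (σ' k))) = 0 := by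
    intro g
    exact hb2 (fun k => (ι.comp (g : L →ₐ[ℚ] L)).comp (σ' k)) (by
      rw [coef_comp]
      exact (map_ne_zero _).2 hcoefL)
  let X : Fin n → Σ j, (E j →ₐ[ℚ] L) := fun k => ⟨t k, σ' k⟩
  let f : ∀ j, (E j →ₐ[ℚ] L) → ℕ := fun j τ => (Finset.univ.filter (fun k => X k = ⟨j, τ⟩)).card
  have hfib : ∀ G : (Σ j, (E j →ₐ[ℚ] L)) → ℚ, ∑ k, G (X k) = ∑ j, ∑ τ : E j →ₐ[ℚ] L,
      (f j τ : ℚ) * G ⟨j, τ⟩ := by
    intro G
    exact sum_fiber' X G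
  have hfbal : ∀ g : L ≃ₐ[ℚ] L,
      ∑ j, ∑ τ : E j →ₐ[ℚ] L, (f j τ : ℚ) * W j (act g τ) = 0 := by
    intro g
    have h1 := hfib (fun x => W x.1 (act g x.2))
    rw [← h1]
    have h2 := hrel g
    simp only [W]
    exact_mod_cast h2
  have hgroup : ∀ (i : I) (g : L ≃ₐ[ℚ] L),
      ∑ k : {k // γ (t k) = i}, u (t k) (ι.comp (act g (σ' k))) = 0 := by
    intro i g
    have h1 := sum_group γ i X (fun j τ => (f j τ : ℚ)) hfib
      (fun x => W x.1 (act g x.2))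
    have h3 := balanced_group W s γ hindL (fun j τ => (f j τ : ℚ)) hfbal i g
    have h4 : ∑ k : {k // γ (t k) = i}, W (t k) (act g (σ' k)) = 0 := h1.trans h3
    simp only [W] at h4
    exact_mod_cast h4
  refine ⟨traceForm γ t σ' a, ?_, fun v => rfl⟩
  intro i
  obtain ⟨cc, hcc1, hcc2⟩ := traceForm_coef γ t σ' a i
  refine ⟨cc, hcc1, fun ρ hρ => ?_⟩
  obtain ⟨h, hh⟩ := hcc2 ρ hρ
  obtain ⟨g, hg⟩ := exists_gal ι h
  have h3 : ∀ k : {k // γ (t k) = i}, ρ k = ι.comp (act g (σ' k)) := by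
    intro k
    rw [hh]
    ext z
    exact hg (σ' k z)
  rw [Finset.sum_congr rfl (fun k _ => by rw [h3 k])]
  exact hgroup i g

theorem independent_of_hodge_split (hu : ∀ j, ∑ σ : E j →ₐ[ℚ] ℂ, u j σ = 0)
    (h : HodgeClassesSplit u γ) : HodgeTraceSpacesIndependent u γ := by
  classical
  intro x hx hsum i₀
  by_contra hne
  choose zz hzx using hx
  let z : ∀ j, E j := fun j => zz (γ j) j
  have hz : ∀ i, ∑ j with γ j = i, ∑ σ : E j →ₐ[ℚ] ℂ, (u j σ : ℂ) * σ (z j) = x i := by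
    intro i
    rw [hzx i]
    refine Finset.sum_congr rfl fun j hj => ?_
    have h2 : γ j = i := (Finset.mem_filter.1 hj).2
    simp only [z]
    rw [h2]
  obtain ⟨L, _, _, _, _, ι, hlift, _⟩ := exists_common E
  have hCL : CharZero L := algebraRat.charZero L
  let W : ∀ j, (E j →ₐ[ℚ] L) → ℚ := fun j τ => ((u j (ι.comp τ) : ℤ) : ℚ)
  have h0 : ∑ j, ∑ τ : E j →ₐ[ℚ] L, (W j τ : L) * τ (z j) = 0 := by
    apply ι.toRingHom.injective
    change ι _ = ι 0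
    rw [map_zero]
    refine (map_trace u ι hlift Finset.univ z).trans ?_
    have h1 := Finset.sum_fiberwise (s := (Finset.univ : Finset J)) (g := γ)
      (f := fun j => ∑ σ : E j →ₐ[ℚ] ℂ, (u j σ : ℂ) * σ (z j))
    rw [← h1, Finset.sum_congr rfl fun i _ => hz i, hsum]
  have h1 : ∑ j with γ j = i₀, ∑ τ : E j →ₐ[ℚ] L, (W j τ : L) * τ (z j) ≠ 0 := by
    intro h
    have h2 := map_trace u ι hlift (Finset.univ.filter (fun j => γ j = i₀)) z
    rw [hz] at h2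
    apply hne
    rw [← h2]
    change ι (∑ j with γ j = i₀, ∑ τ : E j →ₐ[ℚ] L, (W j τ : L) * τ (z j)) = 0
    rw [h, map_zero]
  have hW : ∀ j, ∑ τ : E j →ₐ[ℚ] L, W j τ = 0 := by
    intro j
    have hbij : Function.Bijective (fun τ : E j →ₐ[ℚ] L => ι.comp τ) := by
      refine ⟨fun τ τ' h => ?_, fun σ => hlift j σ⟩
      ext z
      exact ι.toRingHom.injective (DFunLike.congr_fun h z)
    have h2 : ∑ τ : E j →ₐ[ℚ] L, u j (ι.comp τ) = 0 := by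
      rw [← hu j]
      exact Fintype.sum_bijective _ hbij _ _ fun τ => rfl
    simp only [W]
    exact_mod_cast h2
  obtain ⟨f, hf, hf1⟩ := exists_fun_of_dependent' W γ hW z h0 i₀ h1
  let S := Σ j, (E j →ₐ[ℚ] L)
  let κ := Σ x : S, Fin (f x.1 x.2)
  let n := Fintype.card κ
  let e : Fin n ≃ κ := (Fintype.equivFin κ).symm
  let t : Fin n → J := fun k => (e k).1.1
  let σ' : ∀ k : Fin n, E (t k) →ₐ[ℚ] L := fun k => (e k).1.2
  let X : Fin n → Σ j, (E j →ₐ[ℚ] L) := fun k => (e k).1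
  have hfib : ∀ G : (Σ j, (E j →ₐ[ℚ] L)) → ℚ, ∑ k, G (X k) = ∑ j, ∑ τ : E j →ₐ[ℚ] L,
      (f j τ : ℚ) * G ⟨j, τ⟩ := by
    intro G
    simp only [X]
    rw [Equiv.sum_comp e (fun k : κ => G k.1), Fintype.sum_sigma, Fintype.sum_sigma]
    refine Finset.sum_congr rfl fun i _ => Finset.sum_congr rfl fun τ _ => ?_
    change ∑ _y : Fin (f i τ), G ⟨i, τ⟩ = _
    rw [Finset.sum_const, Finset.card_univ, Fintype.card_fin, nsmul_eq_mul]
  have hφ : IsHodgeForm u t (trForm σ') := by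
    obtain ⟨cc, hcc1, hcc2⟩ := trForm_coef σ'
    refine ⟨cc, hcc1, fun ρ hρ => ?_⟩
    obtain ⟨h, hh⟩ := hcc2 ρ hρ
    obtain ⟨g, hg⟩ := exists_gal ι h
    have h3 : ∀ k, ρ k = ι.comp (act g (σ' k)) := by
      intro k
      rw [hh]
      ext z
      exact hg (σ' k z)
    rw [Finset.sum_congr rfl (fun k _ => by rw [h3 k])]
    have h4 := hfib (fun x => W x.1 (act g x.2))
    rw [hf g] at h4
    simp only [W] at h4
    exact_mod_cast h4
  have hmem := h t (trForm σ') hφ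
  apply trForm_coef' σ' ι
  refine coef_span _ _ ?_ _ hmem
  rintro ψ ⟨φ, hφi, hψ⟩
  choose cc hcc1 hcc2 using hφi
  rw [coef_extProd (fun k => γ (t k)) ψ φ hψ cc hcc1]
  by_contra hne'
  have h6 : cc i₀ (fun k => ι.comp (σ' k)) ≠ 0 :=
    (Finset.prod_ne_zero_iff.1 hne') i₀ (Finset.mem_univ _)
  have h7 := hcc2 i₀ _ h6
  have h14 := sum_group γ i₀ X (fun j τ => (f j τ : ℚ)) hfib
    (fun x => W x.1 x.2)
  apply hf1
  have h15 : ∑ k : {k // γ (X k).1 = i₀}, W (X k).1 (X k).2 = 0 := by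
    have h16 : ∑ k : {k // γ (X k).1 = i₀}, u (X k).1 (ι.comp (X k).2) = 0 := h7
    simp only [W]
    exact_mod_cast h16
  exact h14.symm.trans h15

end main

end Pool.Agent.TH5.HL
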