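import Pool.Agent.H485R3.Hodge.Exotic

/-!
# Fields generated by weighted traces and their linear disjointness
-/

set_option autoImplicit false

namespace Pool.Agent.TH5.HL

open NumberField Pool.Agent.H485R3 Pool.Agent.H485R3.Hodge

theorem disjoint_iff {I L : Type*} [Field L] [Algebra ℚ L] [FiniteDimensional ℚ L]
    [IsGalois ℚ L] [Fintype I] (F : I → IntermediateField ℚ L) :
    Module.finrank ℚ (⨆ i, F i : IntermediateField ℚ L) = ∏ i, Module.finrank ℚ (F i) ↔
      ∀ a : I → (L ≃ₐ[ℚ] L), ∃ g : L ≃ₐ[ℚ] L, ∀ i, (a i)⁻¹ * g ∈ (F i).fixingSubgroup := by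
  constructor
  · exact common_gal F
  · intro h
    classical
    let H : I → Subgroup (L ≃ₐ[ℚ] L) := fun i => (F i).fixingSubgroup
    have h1 : ∀ F : IntermediateField ℚ L, Module.finrank ℚ F = F.fixingSubgroup.index := fun F =>
      IntermediateField.finrank_eq_fixingSubgroup_index L F
    rw [h1, fixing_iSup, Finset.prod_congr rfl (fun i _ => h1 _)]
    change Nat.card _ = _
    have hb : Function.Bijective (Subgroup.quotientiInfEmbedding H) := by
      refine ⟨(Subgroup.quotientiInfEmbedding H).injective, ?_⟩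
      intro q
      choose a ha using fun i => QuotientGroup.mk_surjective (q i)
      obtain ⟨g, hg⟩ := h a
      refine ⟨(g : L ≃ₐ[ℚ] L), ?_⟩
      funext i
      rw [← ha i]
      change ((g : L ≃ₐ[ℚ] L) : (L ≃ₐ[ℚ] L) ⧸ H i) = (a i : (L ≃ₐ[ℚ] L) ⧸ H i)
      rw [QuotientGroup.eq]
      have h2 := (H i).inv_mem (hg i)
      rwa [mul_inv_rev, inv_inv] at h2
    rw [Nat.card_congr (Equiv.ofBijective _ hb), Nat.card_pi]
    rfl

section

variable {I J : Type*} {E : J → Type*} [∀ j, Field (E j)] [∀ j, NumberField (E j)]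

/-- The field generated by the traces `∑ σ, w j σ * σ z`, `σ` running through the complex
embeddings of `E j`, for all `j` with `γ j = i` and all `z ∈ E j`. -/
noncomputable def traceField (w : ∀ j, (E j →ₐ[ℚ] ℂ) → ℕ) (γ : J → I) (i : I) :
    IntermediateField ℚ ℂ :=
  IntermediateField.adjoin ℚ
    {x | ∃ j, γ j = i ∧ ∃ z : E j, x = ∑ σ : E j →ₐ[ℚ] ℂ, (w j σ : ℂ) * σ z}

/-- The fields `traceField w γ i` are linearly disjoint: the degree of their compositum is
the product of their degrees. -/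
def TraceFieldsDisjoint [Fintype I] (w : ∀ j, (E j →ₐ[ℚ] ℂ) → ℕ) (γ : J → I) : Prop :=
  Module.finrank ℚ (⨆ i, traceField w γ i : IntermediateField ℚ ℂ) =
    ∏ i, Module.finrank ℚ (traceField w γ i)

theorem traceFieldsDisjoint_iff [Fintype I] (w : ∀ j, (E j →ₐ[ℚ] ℂ) → ℕ) (γ : J → I)
    {L : Type*} [Field L] [Algebra ℚ L] [FiniteDimensional ℚ L] [IsGalois ℚ L] (ι : L →ₐ[ℚ] ℂ)
    (hlift : ∀ j, ∀ σ : E j →ₐ[ℚ] ℂ, ∃ σ' : E j →ₐ[ℚ] L, ι.comp σ' = σ) :
    TraceFieldsDisjoint w γ ↔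
    ∀ b : I → (L ≃ₐ[ℚ] L), ∃ h : L ≃ₐ[ℚ] L, ∀ j (τ : E j →ₐ[ℚ] L),
      w j (ι.comp (act h τ)) = w j (ι.comp (act (b (γ j)) τ)) := by
  classical
  have hCL : CharZero L := algebraRat.charZero L
  let RL : I → IntermediateField ℚ L := fun i => IntermediateField.adjoin ℚ
    {x | ∃ j, γ j = i ∧ ∃ z : E j, x = ∑ τ : E j →ₐ[ℚ] L, (w j (ι.comp τ) : L) * τ z}
  have hbij : ∀ j, Function.Bijective (fun τ : E j →ₐ[ℚ] L => ι.comp τ) := by
    intro j
    refine ⟨fun τ τ' h => ?_, fun σ => hlift j σ⟩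
    ext z
    exact ι.toRingHom.injective (DFunLike.congr_fun h z)
  have hsum : ∀ j (z : E j), ι (∑ τ : E j →ₐ[ℚ] L, (w j (ι.comp τ) : L) * τ z) =
      ∑ σ : E j →ₐ[ℚ] ℂ, (w j σ : ℂ) * σ z := by
    intro j z
    rw [map_sum]
    refine Fintype.sum_bijective _ (hbij j) _ _ fun τ => ?_
    rw [map_mul, map_natCast]
    rfl
  have hmap : ∀ i, (RL i).map ι = traceField w γ i := by
    intro i
    simp only [RL, traceField]
    rw [IntermediateField.adjoin_map]
    congr 1
    ext x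
    constructor
    · rintro ⟨y, ⟨j, hj, z, rfl⟩, rfl⟩
      exact ⟨j, hj, z, hsum j z⟩
    · rintro ⟨j, hj, z, rfl⟩
      exact ⟨_, ⟨j, hj, z, rfl⟩, hsum j z⟩
  have hfr : ∀ F : IntermediateField ℚ L, Module.finrank ℚ (F.map ι) = Module.finrank ℚ F :=
    fun F => finrank_map' F ι
  have hfix : ∀ i (h : L ≃ₐ[ℚ] L), h ∈ (RL i).fixingSubgroup ↔ ∀ j, γ j = i →
      ∀ τ : E j →ₐ[ℚ] L, w j (ι.comp (act h τ)) = w j (ι.comp τ) := by
    intro i h
    have hact : ∀ j (z : E j), h (∑ τ : E j →ₐ[ℚ] L, (w j (ι.comp τ) : L) * τ z) =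
        ∑ τ : E j →ₐ[ℚ] L, (w j (ι.comp (act h⁻¹ τ)) : L) * τ z := by
      intro j z
      rw [map_sum]
      refine Fintype.sum_equiv ⟨act h, act h⁻¹, act_inv_act h, act_act_inv h⟩ _ _ fun τ => ?_
      change h ((w j (ι.comp τ) : L) * τ z) =
        (w j (ι.comp (act h⁻¹ (act h τ))) : L) * (act h τ) z
      rw [act_inv_act, map_mul, map_natCast]
      rfl
    rw [IntermediateField.mem_fixingSubgroup_iff]
    constructor
    · intro hh j hj τ
      have h1 : ∀ z : E j, ∑ τ : E j →ₐ[ℚ] L,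
          ((w j (ι.comp (act h⁻¹ τ)) : L) - (w j (ι.comp τ) : L)) * τ z = 0 := by
        intro z
        simp only [sub_mul]
        rw [Finset.sum_sub_distrib, ← hact, sub_eq_zero]
        exact hh _ (IntermediateField.subset_adjoin _ _ ⟨j, hj, z, rfl⟩)
      have hli : LinearIndependent L (fun τ : E j →ₐ[ℚ] L => (τ : E j → L)) :=
        (linearIndependent_monoidHom (E j) L).comp (fun τ : E j →ₐ[ℚ] L => (τ : E j →* L)) (by
          intro τ τ' hh
          ext z
          exact DFunLike.congr_fun hh z)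
      have h2 := Fintype.linearIndependent_iff.1 hli
        (fun τ => (w j (ι.comp (act h⁻¹ τ)) : L) - (w j (ι.comp τ) : L)) (by
        funext z
        rw [Finset.sum_apply]
        exact h1 z) (act h τ)
      rw [act_inv_act, sub_eq_zero] at h2
      exact_mod_cast h2.symm
    · intro hh x hx
      have hx' : x ∈ IntermediateField.adjoin ℚ {x : L | ∃ j, γ j = i ∧ ∃ z : E j,
        x = ∑ τ : E j →ₐ[ℚ] L, (w j (ι.comp τ) : L) * τ z} := hx
      clear hx
      induction hx' using IntermediateField.adjoin_induction with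
      | mem x hx =>
        obtain ⟨j, hj, z, rfl⟩ := hx
        rw [hact]
        refine Finset.sum_congr rfl fun τ _ => ?_
        have h1 := hh j hj (act h⁻¹ τ)
        rw [act_act_inv] at h1
        rw [h1]
      | algebraMap x => rw [AlgEquiv.commutes]
      | add x y _ _ hx hy => rw [map_add, hx, hy]
      | inv x _ hx => rw [map_inv₀, hx]
      | mul x y _ _ hx hy => rw [map_mul, hx, hy]
  have h0 : TraceFieldsDisjoint w γ ↔ Module.finrank ℚ (⨆ i, RL i : IntermediateField ℚ L) =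
      ∏ i, Module.finrank ℚ (RL i) := by
    unfold TraceFieldsDisjoint
    have h1 : (⨆ i, traceField w γ i) = (⨆ i, RL i : IntermediateField ℚ L).map ι := by
      rw [IntermediateField.map_iSup]
      exact (iSup_congr hmap).symm
    rw [h1, hfr]
    have h2 : ∏ i, Module.finrank ℚ (traceField w γ i) = ∏ i, Module.finrank ℚ (RL i) :=
      Finset.prod_congr rfl fun i _ => by rw [← hmap, hfr]
    rw [h2]
  rw [h0, disjoint_iff]
  constructor
  · intro h b
    obtain ⟨g, hg⟩ := h (fun i => (b i)⁻¹)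
    refine ⟨g⁻¹, fun j τ => ?_⟩
    have h1 := (hfix _ _).1 (hg (γ j)) j rfl (act g⁻¹ τ)
    rw [inv_inv, act_mul, act_act_inv] at h1
    exact h1.symm
  · intro h a
    obtain ⟨g, hg⟩ := h (fun i => (a i)⁻¹)
    refine ⟨g⁻¹, fun i => (hfix _ _).2 fun j hj τ => ?_⟩
    subst hj
    have h1 := hg j (act g⁻¹ τ)
    rw [act_act_inv] at h1
    rw [act_mul]
    exact h1.symm

end

end Pool.Agent.TH5.HL
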