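import Pool.Agent.TH5.HL.Classes

/-!
# Independence of the trace spaces from real intersections of the reflex fields
-/

set_option autoImplicit false
set_option linter.unusedSectionVars false

namespace Pool.Agent.TH5.HL

open NumberField Pool.Agent.H485R3 Pool.Agent.H485R3.Hodge

variable {I J : Type} [Fintype I] [DecidableEq I] [Fintype J] {E : J → Type} [∀ j, Field (E j)]
  [∀ j, NumberField (E j)] (u : ∀ j, (E j →ₐ[ℚ] ℂ) → ℤ) (γ : J → I)

/-- The reflex field of the group `i`: the field generated by the traces `∑ σ, u j σ * σ z`, for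
`j` in the group `i` and `z ∈ E j`. -/
noncomputable def reflexField (i : I) : IntermediateField ℚ ℂ :=
  IntermediateField.adjoin ℚ
    {x | ∃ j, γ j = i ∧ ∃ z : E j, x = ∑ σ : E j →ₐ[ℚ] ℂ, (u j σ : ℂ) * σ z}

/-- For every group `i` the reflex field of `i` and the field generated by the intersections of the
other reflex fields with the normal closure `hullOf E γ i` of the fields `E j` of the group `i`
have a real intersection. -/
def ReflexFieldsMeetReal : Prop :=
  ∀ i, ∀ z ∈ reflexField u γ i ⊓ ⨆ l ∈ {l | l ≠ i}, hullOf E γ i ⊓ reflexField u γ l, z.im = 0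

theorem conj_trace (hu : ∀ j σ, u j (conjEmb σ) = - u j σ) (j : J) (z : E j) :
    starRingEnd ℂ (∑ σ : E j →ₐ[ℚ] ℂ, (u j σ : ℂ) * σ z) =
      - ∑ σ : E j →ₐ[ℚ] ℂ, (u j σ : ℂ) * σ z := by
  rw [map_sum, ← Finset.sum_neg_distrib]
  refine Fintype.sum_equiv ⟨conjEmb, conjEmb, conjEmb_conjEmb, conjEmb_conjEmb⟩ _ _ fun σ => ?_
  change starRingEnd ℂ ((u j σ : ℂ) * σ z) = - ((u j (conjEmb σ) : ℂ) * conjEmb σ z)
  rw [hu, map_mul, conjEmb_apply, map_intCast]
  push_cast
  ring

theorem independent_of_meet (hu : ∀ j σ, u j (conjEmb σ) = - u j σ)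
    (h : ReflexFieldsMeetReal u γ) : HodgeTraceSpacesIndependent u γ := by
  classical
  intro x hx hsum i
  choose zz hzx using hx
  obtain ⟨L, _, _, _, _, ι, hlift, _⟩ := exists_common E
  have hCL : CharZero L := algebraRat.charZero L
  let U : ∀ j, (E j →ₐ[ℚ] L) → L := fun j τ => (((u j (ι.comp τ) : ℤ) : ℚ) : L)
  let y : I → L := fun l => ∑ j with γ j = l, ∑ τ : E j →ₐ[ℚ] L, U j τ * τ (zz l j)
  have hy : ∀ l, ι (y l) = x l := by
    intro l
    rw [hzx l]
    exact map_trace u ι hlift _ (zz l)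
  let N : IntermediateField ℚ L :=
    IntermediateField.adjoin ℚ {z | ∃ j, γ j = i ∧ ∃ τ : E j →ₐ[ℚ] L, z ∈ τ.fieldRange}
  have hmapN : ∀ z ∈ N, ι z ∈ hullOf E γ i := by
    intro z hz
    have h1 : N.map ι ≤ hullOf E γ i := by
      simp only [N]
      rw [IntermediateField.adjoin_map, IntermediateField.adjoin_le_iff]
      rintro x ⟨y, ⟨j, hj, τ, ⟨z, rfl⟩⟩, rfl⟩
      exact IntermediateField.subset_adjoin _ _ ⟨j, hj, ι.comp τ, ⟨z, rfl⟩⟩
    exact h1 ⟨z, hz, rfl⟩
  have hNstab : ∀ (g : L ≃ₐ[ℚ] L), ∀ z ∈ N, g z ∈ N := by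
    intro g z hz
    have h1 : N.map (g : L →ₐ[ℚ] L) ≤ N := by
      simp only [N]
      rw [IntermediateField.adjoin_map, IntermediateField.adjoin_le_iff]
      rintro x ⟨y, ⟨j, hj, τ, ⟨z, rfl⟩⟩, rfl⟩
      exact IntermediateField.subset_adjoin _ _ ⟨j, hj, act g τ, ⟨z, rfl⟩⟩
    exact h1 ⟨z, hz, rfl⟩
  let RL : I → IntermediateField ℚ L := fun l => IntermediateField.adjoin ℚ
    {x | ∃ j, γ j = l ∧ ∃ z : E j, x = ∑ τ : E j →ₐ[ℚ] L, U j τ * τ z}
  have hmapR : ∀ l, ∀ z ∈ RL l, ι z ∈ reflexField u γ l := by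
    intro l z hz
    have h1 : (RL l).map ι ≤ reflexField u γ l := by
      simp only [RL]
      rw [IntermediateField.adjoin_map, IntermediateField.adjoin_le_iff]
      rintro x ⟨y, ⟨j, hj, z, rfl⟩, rfl⟩
      refine IntermediateField.subset_adjoin _ _ ⟨j, hj, z, ?_⟩
      have h2 := map_trace u ι hlift {j} (Pi.single j z)
      simp only [Finset.sum_singleton, Pi.single_eq_same] at h2
      exact h2
    exact h1 ⟨z, hz, rfl⟩
  have hyR : ∀ l, y l ∈ RL l := by
    intro l
    refine sum_mem fun j hj => ?_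
    exact IntermediateField.subset_adjoin _ _ ⟨j, (Finset.mem_filter.1 hj).2, zz l j, rfl⟩
  have hyN : y i ∈ N := by
    refine sum_mem fun j hj => sum_mem fun τ _ => mul_mem ?_ ?_
    · exact SubfieldClass.ratCast_mem N _
    · exact IntermediateField.subset_adjoin _ _
        ⟨j, (Finset.mem_filter.1 hj).2, τ, ⟨zz i j, rfl⟩⟩
  let H : Subgroup (L ≃ₐ[ℚ] L) := N.fixingSubgroup
  have hHfix : ∀ (h : H), ∀ z ∈ N, h.1 z = z := fun h z hz =>
    (IntermediateField.mem_fixingSubgroup_iff _ _).1 h.2 z hz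
  have hHn : H.Normal := by
    refine ⟨fun h hh g => ?_⟩
    refine (IntermediateField.mem_fixingSubgroup_iff _ _).2 fun z hz => ?_
    have h1 := hNstab g⁻¹ z hz
    have h2 := (IntermediateField.mem_fixingSubgroup_iff _ _).1 hh _ h1
    change g (h (g⁻¹ z)) = z
    rw [h2]
    exact g.apply_symm_apply z
  let A : I → L := fun l => ∑ h : H, h.1 (y l)
  have hAN : ∀ l, A l ∈ N := by
    intro l
    rw [← IsGalois.fixedField_fixingSubgroup N, IntermediateField.mem_fixedField_iff]
    intro g hg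
    simp only [A]
    rw [map_sum]
    exact Fintype.sum_equiv (Equiv.mulLeft (⟨g, hg⟩ : H)) _ _ fun u => rfl
  have hAR : ∀ l, A l ∈ RL l := by
    intro l
    rw [← IsGalois.fixedField_fixingSubgroup (RL l), IntermediateField.mem_fixedField_iff]
    intro g hg
    simp only [A]
    rw [map_sum]
    refine Fintype.sum_equiv (MulAut.conjNormal g : H ≃* H).toEquiv _ _ fun h => ?_
    change g (h.1 (y l)) = (MulAut.conjNormal g h : H).1 (y l)
    rw [MulAut.conjNormal_apply]
    change g (h.1 (y l)) = g (h.1 (g⁻¹ (y l)))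
    have h4 : g (y l) = y l := (IntermediateField.mem_fixingSubgroup_iff _ _).1 hg _ (hyR l)
    have h5 : g⁻¹ (y l) = y l := by
      apply g.injective
      change g (g.symm (y l)) = _
      rw [AlgEquiv.apply_symm_apply, h4]
    rw [h5]
  have hsumA : ∑ l, A l = 0 := by
    simp only [A]
    rw [Finset.sum_comm]
    refine Finset.sum_eq_zero fun h _ => ?_
    rw [← map_sum]
    have h1 : ∑ l, y l = 0 := by
      apply ι.toRingHom.injective
      change ι _ = ι 0
      rw [map_sum, map_zero]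
      simp only [hy]
      exact hsum
    rw [h1, map_zero]
  have hAi : A i = (Fintype.card H : L) * y i := by
    simp only [A]
    rw [Finset.sum_congr rfl fun h _ => hHfix h _ hyN, Finset.sum_const, Finset.card_univ,
      nsmul_eq_mul]
  have hAi' : ι (A i) = (Fintype.card H : ℂ) * x i := by
    rw [hAi, map_mul, map_natCast, hy]
  have hmem : ι (A i) ∈ reflexField u γ i ⊓ ⨆ l ∈ {l | l ≠ i},
      hullOf E γ i ⊓ reflexField u γ l := by
    rw [IntermediateField.mem_inf]
    refine ⟨hmapR i _ (hAR i), ?_⟩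
    have h1 : A i = - ∑ l ∈ Finset.univ.erase i, A l := by
      rw [eq_neg_iff_add_eq_zero, Finset.add_sum_erase _ _ (Finset.mem_univ i), hsumA]
    rw [h1, map_neg, map_sum]
    refine neg_mem (sum_mem fun l hl => ?_)
    have hl' : l ∈ {l | l ≠ i} := Finset.ne_of_mem_erase hl
    have h2 : hullOf E γ i ⊓ reflexField u γ l ≤ ⨆ l ∈ {l | l ≠ i},
        hullOf E γ i ⊓ reflexField u γ l :=
      le_iSup₂ (f := fun l (_ : l ∈ {l | l ≠ i}) => hullOf E γ i ⊓ reflexField u γ l) l hl'
    exact h2 (IntermediateField.mem_inf.2 ⟨hmapN _ (hAN l), hmapR l _ (hAR l)⟩)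
  have him := h i _ hmem
  rw [hAi'] at him
  have hcard : (0 : ℝ) < Fintype.card H := by exact_mod_cast Fintype.card_pos
  have him' : (x i).im = 0 := by
    rw [Complex.mul_im, Complex.natCast_re, Complex.natCast_im, zero_mul, add_zero] at him
    exact (mul_eq_zero.1 him).resolve_left hcard.ne'
  have hconj : starRingEnd ℂ (x i) = - x i := by
    rw [hzx i, map_sum, ← Finset.sum_neg_distrib]
    exact Finset.sum_congr rfl fun j _ => conj_trace u hu j (zz i j)
  rw [Complex.conj_eq_iff_im.2 him'] at hconj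
  have h9 : (2 : ℂ) * x i = 0 := by
    rw [two_mul]
    nth_rewrite 1 [hconj]
    rw [neg_add_cancel]
  exact (mul_eq_zero.1 h9).resolve_left two_ne_zero

theorem sum_zero_of_odd (hu : ∀ j σ, u j (conjEmb σ) = - u j σ) (j : J) :
    ∑ σ : E j →ₐ[ℚ] ℂ, u j σ = 0 := by
  have h1 : ∑ σ : E j →ₐ[ℚ] ℂ, u j σ = - ∑ σ : E j →ₐ[ℚ] ℂ, u j σ := by
    rw [← Finset.sum_neg_distrib]
    refine Fintype.sum_equiv ⟨conjEmb, conjEmb, conjEmb_conjEmb, conjEmb_conjEmb⟩ _ _ fun σ => ?_
    change u j σ = - u j (conjEmb σ)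
    rw [hu, neg_neg]
  omega

/-- **The exact criterion for the splitting of Hodge classes.** -/
theorem hodge_split_iff (hu : ∀ j σ, u j (conjEmb σ) = - u j σ) :
    HodgeClassesSplit u γ ↔ HodgeTraceSpacesIndependent u γ :=
  ⟨independent_of_hodge_split u γ (sum_zero_of_odd u hu), hodge_split_of_independent u γ⟩

end Pool.Agent.TH5.HL
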